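import Pool.Agent.LCL89.CL.Trail

set_option autoImplicit false

/-!
# Greedy choice of disjoint closed trails
-/

namespace Pool.Agent.LCL89.CLP

variable {Γ X : Type} [Group Γ] [MulAction Γ X]

/-- starting points for the pattern `P` separated by the set `U` -/
def FindS (H : Bool → Subgroup Γ) (e : Pat Γ × Set X) : Set X :=
  {x | x ∈ Fset H e.1 ∧ x ∈ e.2 ∧
    ∀ i j, ((e.1.2 j).1)⁻¹ • (e.1.2 i).1 • x ∈ e.2 → ((e.1.2 j).1)⁻¹ • (e.1.2 i).1 • x = x}

/-- points of the trails already used before stage `m` -/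
def KK (H : Bool → Subgroup Γ) (e : ℕ → Pat Γ × Set X) : ℕ → Set X
  | 0 => ∅
  | m + 1 => {y | y ∈ KK H e m ∨ ∃ i, ((e m).1.2 i).1⁻¹ • y ∈ FindS H (e m) ∧
      ∀ j, ((e m).1.2 j).1 • ((e m).1.2 i).1⁻¹ • y ∉ KK H e m}

/-- starting points chosen at stage `m` -/
def SS (H : Bool → Subgroup Γ) (e : ℕ → Pat Γ × Set X) (m : ℕ) : Set X :=
  {x | x ∈ FindS H (e m) ∧ ∀ j, ((e m).1.2 j).1 • x ∉ KK H e m}

section

variable {H : Bool → Subgroup Γ} {e : ℕ → Pat Γ × Set X}

lemma mem_KK_succ {m : ℕ} {y : X} : y ∈ KK H e (m + 1) ↔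
    y ∈ KK H e m ∨ ∃ i, ((e m).1.2 i).1⁻¹ • y ∈ SS H e m := Iff.rfl

lemma KK_mono {m m' : ℕ} (h : m ≤ m') : KK H e m ⊆ KK H e m' := by
  induction h with
  | refl => exact subset_rfl
  | step _ ih => exact fun y hy => mem_KK_succ.2 (Or.inl (ih hy))

lemma mem_KK {y : X} {m : ℕ} (h : y ∈ KK H e m) : ∃ m' i, ((e m').1.2 i).1⁻¹ • y ∈ SS H e m' := by
  induction m with
  | zero => exact absurd h (Set.notMem_empty y)
  | succ m ih =>
    rcases mem_KK_succ.1 h with h | ⟨i, hi⟩
    · exact ih h
    · exact ⟨m, i, hi⟩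

lemma color_uniq {y : X} {m m' : ℕ} {i : Fin (e m).1.1} {i' : Fin (e m').1.1}
    (h : ((e m).1.2 i).1⁻¹ • y ∈ SS H e m) (h' : ((e m').1.2 i').1⁻¹ • y ∈ SS H e m') :
    ((e m).1.2 i).2 = ((e m').1.2 i').2 := by
  rcases lt_trichotomy m m' with hlt | heq | hlt
  · exfalso
    have h1 : y ∈ KK H e (m + 1) := mem_KK_succ.2 (Or.inr ⟨i, h⟩)
    have h2 := h'.2 i'
    rw [smul_inv_smul] at h2
    exact h2 (KK_mono hlt h1)
  · subst heq
    have h1 : ((e m).1.2 i').1⁻¹ • y = ((e m).1.2 i).1⁻¹ • y → i = i' := by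
      intro h3
      refine h.1.1.1 i i' ?_
      rw [smul_inv_smul, ← h3, smul_inv_smul]
    have h2 := h.1.2.2 i i'
    rw [smul_inv_smul] at h2
    rw [h1 (h2 h'.1.2.1)]
  · exfalso
    have h1 : y ∈ KK H e (m' + 1) := mem_KK_succ.2 (Or.inr ⟨i', h'⟩)
    have h2 := h.2 i
    rw [smul_inv_smul] at h2
    exact h2 (KK_mono hlt h1)

end

section measurable

variable [MeasurableSpace X] [StandardBorelSpace X] [Countable Γ]

lemma meas_Fset (hm : ∀ γ : Γ, Measurable fun x : X => γ • x) (H : Bool → Subgroup Γ) (P : Pat Γ) :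
    MeasurableSet (Fset H P : Set X) := by
  have hE : ∀ f g : X → X, Measurable f → Measurable g → Measurable fun x : X => f x = g x := by
    intro f g hf hg
    exact measurableSet_setOfPred.1 (measurableSet_eq_fun hf hg)
  refine measurableSet_setOfPred.2 (Measurable.and ?_ ?_)
  · refine Measurable.forall fun i => Measurable.forall fun j => Measurable.imp ?_ measurable_const
    exact hE _ _ (hm _) (hm _)
  · refine Measurable.forall fun b => Measurable.forall fun i => Measurable.exists fun j =>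
      Measurable.and measurable_const (Measurable.exists fun h => Measurable.and measurable_const ?_)
    exact hE _ _ ((hm _).comp (hm _)) (hm _)

lemma meas_FindS (hm : ∀ γ : Γ, Measurable fun x : X => γ • x) (H : Bool → Subgroup Γ)
    (e : Pat Γ × Set X) (he : MeasurableSet e.2) : MeasurableSet (FindS H e : Set X) := by
  have hE : ∀ f g : X → X, Measurable f → Measurable g → Measurable fun x : X => f x = g x := by
    intro f g hf hg
    exact measurableSet_setOfPred.1 (measurableSet_eq_fun hf hg)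
  refine measurableSet_setOfPred.2 (Measurable.and ?_ (Measurable.and ?_ ?_))
  · exact measurableSet_setOfPred.1 (meas_Fset hm H e.1)
  · exact measurableSet_setOfPred.1 he
  · refine Measurable.forall fun i => Measurable.forall fun j => Measurable.imp ?_ ?_
    · exact measurableSet_setOfPred.1 (((hm _).comp (hm _)) he)
    · exact hE _ _ ((hm _).comp (hm _)) measurable_id

lemma meas_KK (hm : ∀ γ : Γ, Measurable fun x : X => γ • x) (H : Bool → Subgroup Γ)
    (e : ℕ → Pat Γ × Set X) (he : ∀ m, MeasurableSet (e m).2) (m : ℕ) :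
    MeasurableSet (KK H e m : Set X) := by
  induction m with
  | zero => exact MeasurableSet.empty
  | succ m ih =>
    refine measurableSet_setOfPred.2 (Measurable.or ?_ (Measurable.exists fun i =>
      Measurable.and ?_ (Measurable.forall fun j => Measurable.not ?_)))
    · exact measurableSet_setOfPred.1 ih
    · exact measurableSet_setOfPred.1 ((hm _) (meas_FindS hm H (e m) (he m)))
    · exact measurableSet_setOfPred.1 (((hm _).comp (hm _)) ih)

lemma meas_SS (hm : ∀ γ : Γ, Measurable fun x : X => γ • x) (H : Bool → Subgroup Γ)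
    (e : ℕ → Pat Γ × Set X) (he : ∀ m, MeasurableSet (e m).2) (m : ℕ) :
    MeasurableSet (SS H e m : Set X) := by
  refine measurableSet_setOfPred.2 (Measurable.and ?_ (Measurable.forall fun j => Measurable.not ?_))
  · exact measurableSet_setOfPred.1 (meas_FindS hm H (e m) (he m))
  · exact measurableSet_setOfPred.1 ((hm _) (meas_KK hm H e he m))

end measurable

/-- **Greedy choice.** `K` = points of the chosen trails, `C` = those with colour `true`. -/
theorem exists_greedy [MeasurableSpace X] [StandardBorelSpace X] [Countable Γ]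
    (hm : ∀ γ : Γ, Measurable fun x : X => γ • x) (H : Bool → Subgroup Γ) :
    ∃ K C : Set X, MeasurableSet K ∧ MeasurableSet C ∧ C ⊆ K ∧
      (∀ x ∈ K, ∀ b, (∃ h ∈ H b, h • x ∈ C) ∧ ∃ h ∈ H b, h • x ∈ K ∧ h • x ∉ C) ∧
      ∀ (x : X) (P : Pat Γ), 0 < P.1 → x ∈ Fset H P → ∃ γ : Γ, γ • x ∈ K := by
  classical
  let _ := upgradeStandardBorel X
  obtain ⟨e, he⟩ : ∃ e : ℕ → Pat Γ × Set X, Set.range e =
      {p | p.2 ∈ insert Set.univ (TopologicalSpace.countableBasis X)} := by
    have hc : (insert Set.univ (TopologicalSpace.countableBasis X)).Countable :=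
      (TopologicalSpace.countable_countableBasis X).insert _
    have h1 : {p : Pat Γ × Set X | p.2 ∈ insert Set.univ (TopologicalSpace.countableBasis X)}.Countable := by
      have h2 := (Set.countable_univ (α := Pat Γ)).prod hc
      refine h2.mono ?_
      intro p hp
      exact ⟨Set.mem_univ _, hp⟩
    have h3 : {p : Pat Γ × Set X |
        p.2 ∈ insert Set.univ (TopologicalSpace.countableBasis X)}.Nonempty :=
      ⟨(⟨0, fun i => i.elim0⟩, Set.univ), Set.mem_insert _ _⟩
    obtain ⟨f, hf⟩ := h1.exists_eq_range h3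
    exact ⟨f, hf.symm⟩
  have heU : ∀ m, MeasurableSet (e m).2 := by
    intro m
    have : e m ∈ Set.range e := ⟨m, rfl⟩
    rw [he] at this
    rcases this with h | h
    · rw [h]; exact MeasurableSet.univ
    · exact ((TopologicalSpace.isBasis_countableBasis X).isOpen h).measurableSet
  refine ⟨⋃ m, KK H e m, {y | ∃ m, ∃ i, ((e m).1.2 i).2 = true ∧ ((e m).1.2 i).1⁻¹ • y ∈ SS H e m},
    MeasurableSet.iUnion fun m => meas_KK hm H e heU m, ?_, ?_, ?_, ?_⟩
  · refine measurableSet_setOfPred.2 (Measurable.exists fun m => Measurable.exists fun i =>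
      Measurable.and measurable_const ?_)
    exact measurableSet_setOfPred.1 ((hm _) (meas_SS hm H e heU m))
  · rintro y ⟨m, i, -, hy⟩
    exact Set.mem_iUnion.2 ⟨m + 1, mem_KK_succ.2 (Or.inr ⟨i, hy⟩)⟩
  · intro y hy b
    obtain ⟨m0, hm0⟩ := Set.mem_iUnion.1 hy
    obtain ⟨m, i, hi⟩ := mem_KK hm0
    obtain ⟨j, hj, h, hh, hhj⟩ := hi.1.1.2 b i
    rw [smul_inv_smul] at hhj
    have hj' : ((e m).1.2 j).1⁻¹ • (h • y) ∈ SS H e m := by
      rw [hhj, inv_smul_smul]
      exact hi
    have hK : h • y ∈ ⋃ m, KK H e m :=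
      Set.mem_iUnion.2 ⟨m + 1, mem_KK_succ.2 (Or.inr ⟨j, hj'⟩)⟩
    cases hc : ((e m).1.2 i).2 with
    | true =>
      rw [hc] at hj
      refine ⟨⟨1, (H b).one_mem, ?_⟩, ⟨h, hh, hK, ?_⟩⟩
      · rw [one_smul]; exact ⟨m, i, hc, hi⟩
      · rintro ⟨m', i', hc', hi'⟩
        have := color_uniq hj' hi'
        rw [hj, hc'] at this
        exact absurd this (by simp)
    | false =>
      rw [hc] at hj
      refine ⟨⟨h, hh, ⟨m, j, by simpa using hj, hj'⟩⟩, ⟨1, (H b).one_mem, ?_, ?_⟩⟩
      · rw [one_smul]; exact hy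
      · rw [one_smul]
        rintro ⟨m', i', hc', hi'⟩
        have := color_uniq hi hi'
        rw [hc, hc'] at this
        exact absurd this (by simp)
  · intro x P hP hx
    -- a basic set separating `x` from the finitely many conflicting points
    have hfin : ({z : X | (∃ i j, (P.2 j).1⁻¹ • (P.2 i).1 • x = z) ∧ z ≠ x}).Finite := by
      have h1 : ({z : X | (∃ i j, (P.2 j).1⁻¹ • (P.2 i).1 • x = z) ∧ z ≠ x}) ⊆
          Set.range (fun p : Fin P.1 × Fin P.1 => (P.2 p.2).1⁻¹ • (P.2 p.1).1 • x) := by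
        rintro z ⟨⟨i, j, h⟩, -⟩
        exact ⟨(i, j), h⟩
      exact (Set.finite_range _).subset h1
    have hop : IsOpen ({z : X | (∃ i j, (P.2 j).1⁻¹ • (P.2 i).1 • x = z) ∧ z ≠ x})ᶜ :=
      hfin.isClosed.isOpen_compl
    obtain ⟨U, hU, hxU, hUs⟩ := (TopologicalSpace.isBasis_countableBasis X).exists_subset_of_mem_open
      (show x ∈ ({z : X | (∃ i j, (P.2 j).1⁻¹ • (P.2 i).1 • x = z) ∧ z ≠ x})ᶜ from
        fun h => h.2 rfl) hop
    have hr : (P, U) ∈ Set.range e := by
      rw [he]; exact Set.mem_insert_of_mem _ hU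
    obtain ⟨m, hm'⟩ := hr
    have hF : x ∈ FindS H (e m) := by
      rw [hm']
      refine ⟨hx, hxU, ?_⟩
      intro i j hij
      by_contra hne
      exact hUs hij ⟨⟨i, j, rfl⟩, hne⟩
    by_cases hK : ∀ j, ((e m).1.2 j).1 • x ∉ KK H e m
    · have hpos : 0 < (e m).1.1 := by rw [hm']; exact hP
      refine ⟨((e m).1.2 ⟨0, hpos⟩).1, Set.mem_iUnion.2 ⟨m + 1, mem_KK_succ.2 (Or.inr ⟨⟨0, hpos⟩, ?_⟩)⟩⟩
      rw [inv_smul_smul]
      exact ⟨hF, hK⟩
    · push Not at hK
      obtain ⟨j, hj⟩ := hK
      exact ⟨((e m).1.2 j).1, Set.mem_iUnion.2 ⟨m, hj⟩⟩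

/-- iterated saturations -/
def VV (H : Bool → Subgroup Γ) (K : Set X) : ℕ → Bool → Set X
  | 0, b => {x | ∃ h ∈ H b, h • x ∈ K}
  | n + 1, b => {x | ∃ h ∈ H b, h • x ∈ VV H K n (!b)}

lemma VV_inv {H : Bool → Subgroup Γ} {K : Set X} {n : ℕ} {b : Bool} {x : X} {h : Γ}
    (hh : h ∈ H b) : h • x ∈ VV H K n b ↔ x ∈ VV H K n b := by
  have key : ∀ (S : Set X) (x : X) (h : Γ), h ∈ H b → (∃ h' ∈ H b, h' • x ∈ S) →
      ∃ h' ∈ H b, h' • h • x ∈ S := by
    rintro S x h hh ⟨h', hh', h1⟩
    refine ⟨h' * h⁻¹, (H b).mul_mem hh' ((H b).inv_mem hh), ?_⟩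
    rw [mul_smul, inv_smul_smul]
    exact h1
  cases n with
  | zero =>
    constructor
    · intro h1
      have := key K (h • x) h⁻¹ ((H b).inv_mem hh) h1
      rw [inv_smul_smul] at this
      exact this
    · exact key K x h hh
  | succ n =>
    constructor
    · intro h1
      have := key (VV H K n (!b)) (h • x) h⁻¹ ((H b).inv_mem hh) h1
      rw [inv_smul_smul] at this
      exact this
    · exact key (VV H K n (!b)) x h hh

/-- **The C-set lemma** for a group generated by two subgroups acting freely. -/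
theorem cset [MeasurableSpace X] [StandardBorelSpace X] [Countable Γ]
    (hm : ∀ γ : Γ, Measurable fun x : X => γ • x) (H : Bool → Subgroup Γ)
    (hgen : ∀ γ : Γ, ∃ w, Valid H w ∧ pr w = γ)
    (hfree : ∀ b, ∀ g ∈ H b, ∀ z : X, g • z = z → g = 1) :
    ∃ C : Set X, MeasurableSet C ∧ ∀ x : X, (∃ γ : Γ, γ ≠ 1 ∧ γ • x = x) →
      (∃ h ∈ H true, h • x ∈ C) ∧ ∃ h ∈ H false, h • x ∉ C := by
  classical
  obtain ⟨K, C, hK, hC, hCK, hpart, hmeet⟩ := exists_greedy hm H
  have hV : ∀ n b, MeasurableSet (VV H K n b) := by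
    intro n
    induction n with
    | zero =>
      intro b
      exact measurableSet_setOfPred.2 (Measurable.exists fun h => Measurable.and measurable_const
        (measurableSet_setOfPred.1 ((hm h) hK)))
    | succ n ih =>
      intro b
      exact measurableSet_setOfPred.2 (Measurable.exists fun h => Measurable.and measurable_const
        (measurableSet_setOfPred.1 ((hm h) (ih _))))
  refine ⟨{x | x ∈ C ∨ (x ∉ K ∧ ∃ n, x ∈ VV H K n false ∧ ∀ m, m ≤ n → x ∉ VV H K m true)}, ?_, ?_⟩
  · refine measurableSet_setOfPred.2 (Measurable.or (measurableSet_setOfPred.1 hC)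
      (Measurable.and (Measurable.not (measurableSet_setOfPred.1 hK)) (Measurable.exists fun n =>
        Measurable.and (measurableSet_setOfPred.1 (hV n false)) (Measurable.forall fun m =>
          Measurable.imp measurable_const (Measurable.not (measurableSet_setOfPred.1 (hV m true)))))))
  · intro x hx
    -- finite distance
    have hfin : ∀ b, ∃ n, x ∈ VV H K n b := by
      obtain ⟨δ, P, hP, hδ⟩ := exists_trail H hgen hfree x hx
      obtain ⟨γ, hγ⟩ := hmeet _ P hP hδ
      have hstep : ∀ (w : List (Bool × Γ)), Valid H w → ∀ z : X, (∀ b, ∃ n, z ∈ VV H K n b) →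
          ∀ b, ∃ n, pr w • z ∈ VV H K n b := by
        intro w
        induction w with
        | nil => intro _ z hz b; rw [pr_nil, one_smul]; exact hz b
        | cons l w ih =>
          intro hw z hz b
          rw [valid_cons] at hw
          have h1 := ih hw.2 z hz
          rw [pr_cons, mul_smul]
          by_cases hb : l.1 = b
          · obtain ⟨n, hn⟩ := h1 b
            subst hb
            exact ⟨n, (VV_inv hw.1).2 hn⟩
          · obtain ⟨n, hn⟩ := h1 l.1
            have h2 : l.1 = !b := by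
              revert hb
              cases l.1 <;> cases b <;> simp
            refine ⟨n + 1, 1, (H b).one_mem, ?_⟩
            rw [one_smul, ← h2]
            exact (VV_inv hw.1).2 hn
      obtain ⟨w, hw, hw'⟩ := hgen (γ * δ)⁻¹
      have h1 := hstep w hw (γ • δ • x) (fun b => ⟨0, 1, (H b).one_mem, by rw [one_smul]; exact hγ⟩)
      rw [hw', ← mul_smul γ δ x, inv_smul_smul] at h1
      exact h1
    constructor
    · -- orbits of `H true`
      have hn := Nat.find_spec (hfin true)
      have hmin := fun m => @Nat.find_min _ _ (hfin true) m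
      rcases hd : Nat.find (hfin true) with _ | n
      · rw [hd] at hn
        obtain ⟨h, hh, hhK⟩ := hn
        obtain ⟨h', hh', hC'⟩ := (hpart _ hhK true).1
        exact ⟨h' * h, (H true).mul_mem hh' hh, Or.inl (by rw [mul_smul]; exact hC')⟩
      · rw [hd] at hn
        have hm0 : ∀ m, m ≤ n → x ∉ VV H K m true := fun m hm1 => hmin m (by rw [hd]; omega)
        obtain ⟨h, hh, hhV⟩ := hn
        refine ⟨h, hh, Or.inr ⟨?_, n, hhV, ?_⟩⟩
        · intro hKx
          exact hm0 0 (Nat.zero_le _) ⟨h, hh, hKx⟩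
        · intro m hm1 hmem
          exact hm0 m hm1 ((VV_inv hh).1 hmem)
    · have hn := Nat.find_spec (hfin false)
      have hmin := fun m => @Nat.find_min _ _ (hfin false) m
      rcases hd : Nat.find (hfin false) with _ | n
      · rw [hd] at hn
        obtain ⟨h, hh, hhK⟩ := hn
        obtain ⟨h', hh', hK', hC'⟩ := (hpart _ hhK false).2
        refine ⟨h' * h, (H false).mul_mem hh' hh, ?_⟩
        rw [mul_smul]
        rintro (h1 | ⟨h1, -⟩)
        · exact hC' h1
        · exact h1 hK'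
      · rw [hd] at hn
        have hm0 : ∀ m, m ≤ n → x ∉ VV H K m false := fun m hm1 => hmin m (by rw [hd]; omega)
        obtain ⟨h, hh, hhV⟩ := hn
        have hyK : h • x ∉ K := fun hKx => hm0 0 (Nat.zero_le _) ⟨h, hh, hKx⟩
        refine ⟨h, hh, ?_⟩
        rintro (h1 | ⟨-, n', h2, h3⟩)
        · exact hyK (hCK h1)
        · have h4 : n < n' := by
            by_contra hle
            exact hm0 n' (by omega) ((VV_inv hh).1 h2)
          exact h3 n h4.le hhV

end Pool.Agent.LCL89.CLP
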