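import Pool.Agent.LCL89.CL.Stmt
import Pool.Agent.LCL89.CL.Greedy

set_option autoImplicit false

/-!
# The C-set lemma for free products
-/

namespace Pool.Agent.LCL89

open Monoid CLP

/-- **CL.** -/
theorem stmtCL : StmtCL := by
  intro A G _ _ _ _ X _ _ _ hm hA hG
  let H : Bool → Subgroup (Coprod A G) := fun b =>
    match b with
    | true => (Coprod.inl : A →* Coprod A G).range
    | false => (Coprod.inr : G →* Coprod A G).range
  have : Countable (Coprod A G) := by
    have : Countable (FreeMonoid (A ⊕ G)) := inferInstanceAs (Countable (List (A ⊕ G)))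
    exact (Coprod.mk_surjective (M := A) (N := G)).countable
  have hgen : ∀ γ : Coprod A G, ∃ w, Valid H w ∧ pr w = γ := by
    intro γ
    induction γ using Coprod.induction_on with
    | inl a =>
      refine ⟨[(true, Coprod.inl a)], ?_, by simp [pr]⟩
      intro l hl
      rw [List.mem_singleton] at hl
      subst hl
      exact ⟨a, rfl⟩
    | inr g =>
      refine ⟨[(false, Coprod.inr g)], ?_, by simp [pr]⟩
      intro l hl
      rw [List.mem_singleton] at hl
      subst hl
      exact ⟨g, rfl⟩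
    | mul x y hx hy =>
      obtain ⟨w1, h1, h1'⟩ := hx
      obtain ⟨w2, h2, h2'⟩ := hy
      exact ⟨w1 ++ w2, valid_append.2 ⟨h1, h2⟩, by rw [pr_append, h1', h2']⟩
  have hfree : ∀ b, ∀ g ∈ H b, ∀ z : X, g • z = z → g = 1 := by
    intro b g hg z hz
    cases b with
    | true =>
      obtain ⟨a, rfl⟩ := hg
      rw [hA a z hz, map_one]
    | false =>
      obtain ⟨a, rfl⟩ := hg
      rw [hG a z hz, map_one]
  obtain ⟨C, hC, h⟩ := cset hm H hgen hfree
  refine ⟨C, hC, ?_, ?_⟩
  · intro x hx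
    obtain ⟨⟨g, ⟨a, rfl⟩, hg⟩, -⟩ := h x hx
    exact ⟨a, hg⟩
  · intro x hx
    obtain ⟨-, ⟨g, ⟨a, rfl⟩, hg⟩⟩ := h x hx
    exact ⟨a, hg⟩

end Pool.Agent.LCL89
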