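import Pool.Agent.LCL89.CL.Stmt
import Pool.Agent.Lib_helper77.LCL.CSet2

set_option autoImplicit false

/-!
# The C-set lemma: proof (from `Lib_helper77/LCL/CSet2`)
-/

namespace Pool.Agent.LCL89

open Monoid Pool.Agent.Lib_helper77

theorem countable_coprod (A G : Type) [Group A] [Countable A] [Group G] [Countable G] :
    Countable (Coprod A G) := by
  have h : Function.Surjective (Coprod.mk : FreeMonoid (A ⊕ G) → Coprod A G) :=
    Coprod.mk_surjective
  have : Countable (FreeMonoid (A ⊕ G)) := inferInstanceAs (Countable (List (A ⊕ G)))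
  exact h.countable

/-- the two free factors as subgroups -/
def facs (A G : Type) [Group A] [Group G] : Bool → Subgroup (Coprod A G)
  | true => (Coprod.inl : A →* Coprod A G).range
  | false => (Coprod.inr : G →* Coprod A G).range

theorem facs_gen (A G : Type) [Group A] [Group G] :
    Subgroup.closure ((facs A G true : Set (Coprod A G)) ∪ facs A G false) = ⊤ := by
  rw [Subgroup.closure_union, Subgroup.closure_eq, Subgroup.closure_eq]
  exact Coprod.range_inl_sup_range_inr

theorem cl : StmtCL := by
  intro A G _ _ _ _ X _ _ _ hm hA hG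
  haveI := countable_coprod A G
  obtain ⟨C, h1, h2, h3, h4⟩ := CSet.cset (Γ := Coprod A G) (X := X) hm (facs A G)
    (facs_gen A G) (by
      intro b γ hγ hne x hx
      cases b with
      | true =>
        obtain ⟨a, rfl⟩ := hγ
        exact hne (by rw [hA a x hx, map_one])
      | false =>
        obtain ⟨g, rfl⟩ := hγ
        exact hne (by rw [hG g x hx, map_one]))
  refine ⟨C, h1, ?_, ?_⟩
  · intro x hx
    obtain ⟨γ, ⟨a, rfl⟩, h⟩ := h3 x hx
    exact ⟨a, h⟩
  · intro x hx
    obtain ⟨γ, ⟨g, rfl⟩, h⟩ := h4 x hx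
    exact ⟨g, h⟩

end Pool.Agent.LCL89
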