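import Mathlib

set_option autoImplicit false

/-!
# The C-set lemma: statement
-/

namespace Pool.Agent.LCL89

open Monoid

/-- CL: in the non-free part of a Borel action of `A * G` (`A`, `G` acting freely) there is a Borel
set `C` meeting every `A`-orbit, whose complement meets every `G`-orbit. -/
def StmtCL : Prop :=
  ∀ (A G : Type) [Group A] [Countable A] [Group G] [Countable G] (X : Type) [MeasurableSpace X]
    [StandardBorelSpace X] [MulAction (Coprod A G) X],
    (∀ γ : Coprod A G, Measurable fun x : X => γ • x) →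
    (∀ (a : A) (x : X), (Coprod.inl a : Coprod A G) • x = x → a = 1) →
    (∀ (g : G) (x : X), (Coprod.inr g : Coprod A G) • x = x → g = 1) →
    ∃ C : Set X, MeasurableSet C ∧
      (∀ x : X, (∃ γ : Coprod A G, γ ≠ 1 ∧ γ • x = x) → ∃ a : A, (Coprod.inl a : Coprod A G) • x ∈ C) ∧
      (∀ x : X, (∃ γ : Coprod A G, γ ≠ 1 ∧ γ • x = x) → ∃ g : G, (Coprod.inr g : Coprod A G) • x ∉ C)

end Pool.Agent.LCL89
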