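import Mathlib

set_option autoImplicit false

/-!
# Closed trails in nonfree orbits

`Γ` acts on `X` and is generated by two subgroups `H true`, `H false` acting freely. In every orbit
with nontrivial stabiliser there is a finite closed trail: finitely many distinct points, coloured
by two colours, such that the `H b`-orbit of each of them contains one of the opposite colour.
-/

namespace Pool.Agent.LCL89.CLP

variable {Γ X : Type} [Group Γ] [MulAction Γ X]

/-- product of a typed word -/
def pr (w : List (Bool × Γ)) : Γ := (w.map Prod.snd).prod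

/-- typed word: the letter `(b, g)` lies in `H b` -/
def Valid (H : Bool → Subgroup Γ) (w : List (Bool × Γ)) : Prop := ∀ l ∈ w, l.2 ∈ H l.1

/-- `x` and `y` are in the same `H b`-orbit -/
def Rel (H : Bool → Subgroup Γ) (b : Bool) (x y : X) : Prop := ∃ h ∈ H b, h • x = y

/-- patterns: finitely many group elements with colours -/
abbrev Pat (Γ : Type) : Type := Σ n : ℕ, (Fin n → Γ × Bool)

/-- the points where the pattern is a closed trail -/
def Fset (H : Bool → Subgroup Γ) (P : Pat Γ) : Set X :=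
  {x | (∀ i j, (P.2 i).1 • x = (P.2 j).1 • x → i = j) ∧
    ∀ b i, ∃ j, (P.2 j).2 = !(P.2 i).2 ∧ Rel H b ((P.2 i).1 • x) ((P.2 j).1 • x)}

lemma pr_nil : pr ([] : List (Bool × Γ)) = 1 := rfl

lemma pr_append (u v : List (Bool × Γ)) : pr (u ++ v) = pr u * pr v := by
  simp [pr]

lemma pr_cons (l : Bool × Γ) (v : List (Bool × Γ)) : pr (l :: v) = l.2 * pr v := by
  simp [pr]

lemma valid_append {H : Bool → Subgroup Γ} {u v : List (Bool × Γ)} :
    Valid H (u ++ v) ↔ Valid H u ∧ Valid H v := by
  constructor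
  · intro h
    exact ⟨fun l hl => h l (List.mem_append_left _ hl), fun l hl => h l (List.mem_append_right _ hl)⟩
  · rintro ⟨h1, h2⟩ l hl
    rcases List.mem_append.1 hl with h | h
    · exact h1 l h
    · exact h2 l h

lemma valid_cons {H : Bool → Subgroup Γ} {l : Bool × Γ} {v : List (Bool × Γ)} :
    Valid H (l :: v) ↔ l.2 ∈ H l.1 ∧ Valid H v := by
  constructor
  · intro h
    exact ⟨h l (List.mem_cons_self ..), fun l' hl => h l' (List.mem_cons_of_mem _ hl)⟩
  · rintro ⟨h1, h2⟩ l' hl
    rcases List.mem_cons.1 hl with h | h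
    · rw [h]; exact h1
    · exact h2 l' h

lemma Rel.symm {H : Bool → Subgroup Γ} {b : Bool} {x y : X} (h : Rel H b x y) : Rel H b y x := by
  obtain ⟨g, hg, rfl⟩ := h
  exact ⟨g⁻¹, (H b).inv_mem hg, inv_smul_smul _ _⟩

/-- a minimal closed typed word at a point of the orbit -/
structure MinW (H : Bool → Subgroup Γ) (x : X) (w : List (Bool × Γ)) (y : X) : Prop where
  valid : Valid H w
  ne : pr w ≠ 1
  orb : ∃ δ : Γ, δ • x = y
  fix : pr w • y = y
  min : ∀ (w' : List (Bool × Γ)) (y' : X), Valid H w' → pr w' ≠ 1 → (∃ δ : Γ, δ • x = y') →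
    pr w' • y' = y' → w.length ≤ w'.length

lemma exists_minW (H : Bool → Subgroup Γ) (hgen : ∀ γ : Γ, ∃ w, Valid H w ∧ pr w = γ) (x : X)
    (hx : ∃ γ : Γ, γ ≠ 1 ∧ γ • x = x) : ∃ w y, MinW H x w y := by
  classical
  have hex : ∃ n : ℕ, ∃ w : List (Bool × Γ), ∃ y : X, Valid H w ∧ pr w ≠ 1 ∧ (∃ δ : Γ, δ • x = y) ∧
      pr w • y = y ∧ w.length = n := by
    obtain ⟨γ, hγ, hγx⟩ := hx
    obtain ⟨w, hw, hw'⟩ := hgen γ
    exact ⟨w.length, w, x, hw, by rw [hw']; exact hγ, ⟨1, one_smul _ _⟩, by rw [hw']; exact hγx, rfl⟩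
  obtain ⟨w, y, h1, h2, h3, h4, h5⟩ := Nat.find_spec hex
  refine ⟨w, y, h1, h2, h3, h4, ?_⟩
  intro w' y' h1' h2' h3' h4'
  rw [h5]
  exact Nat.find_min' hex ⟨w', y', h1', h2', h3', h4', rfl⟩

section

variable {H : Bool → Subgroup Γ} {x : X} {w : List (Bool × Γ)} {y : X}

/-- the points of the trail -/
def pt (w : List (Bool × Γ)) (y : X) (i : ℕ) : X := (pr (w.take i))⁻¹ • y

lemma pt_zero : pt w y 0 = y := by simp [pt, pr_nil]

lemma pt_length (h : MinW H x w y) : pt w y w.length = y := by
  rw [pt, List.take_length, inv_smul_eq_iff, h.fix]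

lemma pt_orb (h : MinW H x w y) (i : ℕ) : ∃ δ : Γ, δ • x = pt w y i := by
  obtain ⟨δ, rfl⟩ := h.orb
  exact ⟨(pr (w.take i))⁻¹ * δ, by rw [mul_smul]; rfl⟩

lemma pt_succ {i : ℕ} (hi : i < w.length) : pt w y (i + 1) = (w[i].2)⁻¹ • pt w y i := by
  rw [pt, pt, ← List.take_append_getElem hi, pr_append, mul_inv_rev, mul_smul]
  simp [pr]

lemma pt_rel (h : MinW H x w y) {i : ℕ} (hi : i < w.length) :
    Rel H (w[i].1) (pt w y i) (pt w y (i + 1)) :=
  ⟨(w[i].2)⁻¹, (H _).inv_mem (h.valid _ (List.getElem_mem hi)), (pt_succ hi).symm⟩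

lemma pt_inj (h : MinW H x w y) {i j : ℕ} (hij : i < j) (hj : j < w.length) :
    pt w y i ≠ pt w y j := by
  intro he
  set u := w.take i with hu
  set v := (w.take j).drop i with hv
  set t := w.drop j with ht
  have hw : w = u ++ v ++ t := by
    have h1 : u ++ v = w.take j := by
      rw [hu, hv]
      have : w.take i = (w.take j).take i := by
        rw [List.take_take, min_eq_left hij.le]
      rw [this, List.take_append_drop]
    rw [h1, ht, List.take_append_drop]
  have huv : w.take j = u ++ v := by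
    rw [hu, hv]
    have : w.take i = (w.take j).take i := by
      rw [List.take_take, min_eq_left hij.le]
    rw [this, List.take_append_drop]
  have hlen : w.length = u.length + v.length + t.length := by
    rw [hw]; simp only [List.length_append]
  have hul : u.length = i := by rw [hu, List.length_take]; omega
  have htl : t.length = w.length - j := by rw [ht, List.length_drop]
  have hval : Valid H u ∧ Valid H v ∧ Valid H t := by
    have := h.valid
    rw [hw, valid_append, valid_append] at this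
    exact ⟨this.1.1, this.1.2, this.2⟩
  have hfix : pr v • pt w y i = pt w y i := by
    have h2 : pt w y j = (pr v)⁻¹ • pt w y i := by
      rw [pt, huv, pr_append, mul_inv_rev, mul_smul]
      rfl
    conv_rhs => rw [he, h2]
    conv_lhs => rw [he, h2]
    rw [← he] at h2
    rw [smul_inv_smul, ← h2]
  have hv1 : pr v = 1 := by
    by_contra hne
    have := h.min v (pt w y i) hval.2.1 hne (pt_orb h i) hfix
    omega
  have hpr : pr (u ++ t) = pr w := by
    conv_rhs => rw [hw, pr_append, pr_append, hv1, mul_one]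
    rw [pr_append]
  have := h.min (u ++ t) y (valid_append.2 ⟨hval.1, hval.2.2⟩) (by rw [hpr]; exact h.ne) h.orb
    (by rw [hpr]; exact h.fix)
  rw [List.length_append] at this
  omega

lemma adj_ne (h : MinW H x w y) {i : ℕ} (hi : i + 1 < w.length) :
    (w[i + 1].1) = !(w[i].1) := by
  by_contra hne
  have heq : w[i + 1].1 = w[i].1 := by
    revert hne
    cases w[i + 1].1 <;> cases w[i].1 <;> simp
  have hw : w = w.take i ++ w[i] :: w[i + 1] :: w.drop (i + 2) := by
    conv_lhs => rw [← List.take_append_drop i w]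
    rw [List.drop_eq_getElem_cons (by omega : i < w.length),
      List.drop_eq_getElem_cons (by omega : i + 1 < w.length)]
  have hval := h.valid
  rw [hw, valid_append, valid_cons, valid_cons] at hval
  have h0 : Valid H (w.take i ++ (w[i].1, w[i].2 * w[i + 1].2) :: w.drop (i + 2)) := by
    rw [valid_append, valid_cons]
    refine ⟨hval.1, ?_, hval.2.2.2⟩
    have h2 := hval.2.2.1
    rw [heq] at h2
    exact (H _).mul_mem hval.2.1 h2
  have h1 : pr (w.take i ++ (w[i].1, w[i].2 * w[i + 1].2) :: w.drop (i + 2)) = pr w := by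
    conv_rhs => rw [hw]
    simp only [pr_append, pr_cons, mul_assoc]
  have := h.min _ y h0 (by rw [h1]; exact h.ne) h.orb (by rw [h1]; exact h.fix)
  simp only [List.length_append, List.length_cons, List.length_take, List.length_drop] at this
  omega

lemma length_pos (h : MinW H x w y) : 0 < w.length := by
  rcases w with _ | ⟨l, w⟩
  · exact absurd pr_nil h.ne
  · simp

lemma one_lt_length (hfree : ∀ b, ∀ g ∈ H b, ∀ z : X, g • z = z → g = 1) (h : MinW H x w y) :
    1 < w.length := by
  by_contra hlt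
  have h1 : w.length = 1 := by have := length_pos h; omega
  obtain ⟨l, rfl⟩ := List.length_eq_one_iff.1 h1
  apply h.ne
  have h2 : pr [l] = l.2 := by simp [pr]
  rw [h2]
  exact hfree l.1 l.2 (h.valid l (by simp)) y (by rw [← h2]; exact h.fix)

lemma last_ne (hfree : ∀ b, ∀ g ∈ H b, ∀ z : X, g • z = z → g = 1) (h : MinW H x w y)
    (h0 : 0 < w.length) : (w[w.length - 1].1) = !(w[0].1) := by
  have hn := one_lt_length hfree h
  by_contra hne
  have heq : w[w.length - 1].1 = w[0].1 := by
    revert hne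
    cases w[w.length - 1].1 <;> cases w[0].1 <;> simp
  obtain ⟨m, l, l', hw⟩ : ∃ (m : List (Bool × Γ)) (l l' : Bool × Γ), w = l :: (m ++ [l']) := by
    rcases w with _ | ⟨l, w⟩
    · simp at hn
    · rcases List.eq_nil_or_concat w with rfl | ⟨m, l', rfl⟩
      · simp at hn
      · exact ⟨m, l, l', by simp⟩
  subst hw
  have hl : (l :: (m ++ [l']))[(l :: (m ++ [l'])).length - 1] = l' := by simp
  have hl0 : (l :: (m ++ [l']))[0] = l := rfl
  rw [hl, hl0] at heq
  have hval := h.valid
  rw [valid_cons, valid_append, valid_cons] at hval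
  have h1 : Valid H (m ++ [(l.1, l'.2 * l.2)]) := by
    rw [valid_append, valid_cons]
    refine ⟨hval.2.1, ?_, by intro l hl; simp at hl⟩
    have h2 := hval.2.2.1
    rw [heq] at h2
    exact (H _).mul_mem h2 hval.1
  have h2 : pr (m ++ [(l.1, l'.2 * l.2)]) = l.2⁻¹ * pr (l :: (m ++ [l'])) * l.2 := by
    simp only [pr_append, pr_cons, pr_nil]
    group
  have h3 : pr (m ++ [(l.1, l'.2 * l.2)]) ≠ 1 := by
    rw [h2]
    intro h4
    apply h.ne
    have h5 : pr (l :: (m ++ [l'])) = l.2 * (l.2⁻¹ * pr (l :: (m ++ [l'])) * l.2) * l.2⁻¹ := by group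
    rw [h5, h4]; group
  have h4 : pr (m ++ [(l.1, l'.2 * l.2)]) • (l.2⁻¹ • y) = l.2⁻¹ • y := by
    rw [h2, ← mul_smul, mul_assoc, mul_inv_cancel, mul_one, mul_smul, h.fix]
  obtain ⟨δ, hδ⟩ := h.orb
  have := h.min _ (l.2⁻¹ • y) h1 h3 ⟨l.2⁻¹ * δ, by rw [mul_smul, hδ]⟩ h4
  simp only [List.length_append, List.length_cons, List.length_nil] at this
  omega

lemma type_eq (h : MinW H x w y) (h0 : 0 < w.length) : ∀ (i : ℕ) (hi : i < w.length),
    (w[i].1) = xor (w[0].1) (decide (i % 2 = 1)) := by
  intro i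
  induction i with
  | zero => intro hi; simp
  | succ i ih =>
    intro hi
    rw [adj_ne h hi, ih (by omega)]
    rcases Nat.mod_two_eq_zero_or_one i with h1 | h1
    · have h2 : (i + 1) % 2 = 1 := by omega
      simp [h1, h2]
    · have h2 : (i + 1) % 2 = 0 := by omega
      simp [h1, h2]

lemma length_even (hfree : ∀ b, ∀ g ∈ H b, ∀ z : X, g • z = z → g = 1) (h : MinW H x w y) :
    w.length % 2 = 0 := by
  have h0 := length_pos h
  have h1 := last_ne hfree h h0
  rw [type_eq h h0 (w.length - 1) (by omega)] at h1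
  by_contra hne
  have h2 : (w.length - 1) % 2 = 0 := by omega
  rw [h2] at h1
  revert h1
  cases w[0].1 <;> simp

/-- cyclic successor -/
lemma partner (hfree : ∀ b, ∀ g ∈ H b, ∀ z : X, g • z = z → g = 1) (h : MinW H x w y) (b : Bool)
    (i : ℕ) (hi : i < w.length) : ∃ j, j < w.length ∧ j % 2 ≠ i % 2 ∧ Rel H b (pt w y i) (pt w y j) := by
  have hev := length_even hfree h
  have h1 := one_lt_length hfree h
  by_cases hb : w[i].1 = b
  · -- successor
    have hr := pt_rel h hi
    rw [hb] at hr
    by_cases hi1 : i + 1 < w.length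
    · exact ⟨i + 1, hi1, by omega, hr⟩
    · have hi2 : i + 1 = w.length := by omega
      refine ⟨0, by omega, by omega, ?_⟩
      rw [hi2, pt_length h] at hr
      rw [pt_zero]
      exact hr
  · have hb' : w[i].1 = !b := by
      revert hb
      cases w[i].1 <;> cases b <;> simp
    rcases i with _ | i
    · have h2 := last_ne hfree h (by omega)
      rw [hb', Bool.not_not] at h2
      have hr := pt_rel h (i := w.length - 1) (by omega)
      rw [h2, Nat.sub_add_cancel (by omega), pt_length h] at hr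
      refine ⟨w.length - 1, by omega, by omega, ?_⟩
      rw [pt_zero]
      exact hr.symm
    · have h2 := adj_ne h hi
      rw [hb'] at h2
      have h3 : w[i].1 = b := by
        revert h2
        cases w[i].1 <;> cases b <;> simp
      have hr := pt_rel h (i := i) (by omega)
      rw [h3] at hr
      exact ⟨i, by omega, by omega, hr.symm⟩

end

/-- **Closed trails exist in nonfree orbits.** -/
theorem exists_trail (H : Bool → Subgroup Γ) (hgen : ∀ γ : Γ, ∃ w, Valid H w ∧ pr w = γ)
    (hfree : ∀ b, ∀ g ∈ H b, ∀ z : X, g • z = z → g = 1) (x : X)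
    (hx : ∃ γ : Γ, γ ≠ 1 ∧ γ • x = x) :
    ∃ (δ : Γ) (P : Pat Γ), 0 < P.1 ∧ δ • x ∈ Fset H P := by
  obtain ⟨w, y, h⟩ := exists_minW H hgen x hx
  obtain ⟨δ, hδ⟩ := h.orb
  refine ⟨δ, ⟨w.length, fun i => ((pr (w.take i))⁻¹, decide ((i : ℕ) % 2 = 0))⟩, length_pos h, ?_⟩
  rw [hδ]
  constructor
  · intro i j hij
    change pt w y i = pt w y j at hij
    by_contra hne
    rcases lt_trichotomy (i : ℕ) (j : ℕ) with h1 | h1 | h1
    · exact pt_inj h h1 j.2 hij
    · exact hne (Fin.ext h1)
    · exact pt_inj h h1 i.2 hij.symm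
  · intro b i
    obtain ⟨j, hj, hp, hr⟩ := partner hfree h b i i.2
    refine ⟨⟨j, hj⟩, ?_, hr⟩
    change decide (j % 2 = 0) = !decide ((i : ℕ) % 2 = 0)
    rcases Nat.mod_two_eq_zero_or_one (i : ℕ) with h1 | h1
    · have h2 : j % 2 = 1 := by omega
      simp [h1, h2]
    · have h2 : j % 2 = 0 := by omega
      simp [h1, h2]

end Pool.Agent.LCL89.CLP
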